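import Mathlib
import Pool.Agent.N321.CAPrefix.Proof

namespace Pool.Agent.Results.MP_0d2fa0_co.PrefixSumCounterexample

open Finset Pool.Agent.N321.CAPrefix

/-- There are a radius `r`, a surjective binary cellular automaton of radius `r` and some
`n ≤ r+1` for which the prefix sum of the preimage histogram is strictly smaller than the one of
the identity. -/
theorem result :
    ∃ (r : ℕ) (f : (Fin (r + 1) → Bool) → Bool), Function.Surjective (caMap r f) ∧
      ∃ n ≤ r + 1, ∑ k ∈ range (n + 1), preimageCount r f k
        < ∑ k ∈ range (n + 1), preimageCount r (idRule r) k :=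
  prefix_counterexample

end Pool.Agent.Results.MP_0d2fa0_co.PrefixSumCounterexample
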